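import Pool.Agent.Helper61.SIG9.Bound

/-!
# Sphere-of-influence graphs in the plane: the constant `9`

`Pl` is the Euclidean plane, `rad P p` is the distance from `p` to its nearest other point of `P`,
`sig P` is the sphere-of-influence graph (open discs meet) and `csig P` is the closed
sphere-of-influence graph (closed discs meet).
-/

open Filter Topology Pool.Agent.Helper67.SIG Pool.Agent.Helper61.SIG9

namespace Pool.Agent.Results.MP_62479d_co.NineSharp

/-- The largest number of edges of a sphere-of-influence graph on `n` points (open discs). -/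
noncomputable def f (n : ℕ) : ℕ :=
  sSup {m : ℕ | ∃ P : Finset Pl, P.card = n ∧ (sig P).edgeSet.ncard = m}

/-- The largest number of edges of a closed sphere-of-influence graph on `n` points. -/
noncomputable def fc (n : ℕ) : ℕ :=
  sSup {m : ℕ | ∃ P : Finset Pl, P.card = n ∧ (csig P).edgeSet.ncard = m}

theorem bdd_open (n : ℕ) :
    BddAbove {m : ℕ | ∃ P : Finset Pl, P.card = n ∧ (sig P).edgeSet.ncard = m} := by
  refine ⟨n.choose 2, ?_⟩
  rintro m ⟨P, hP, rfl⟩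
  rw [← hP]
  exact edges_le_choose P (sig P) (fun p q h => ⟨h.1, h.2.1⟩)

theorem bdd_closed (n : ℕ) :
    BddAbove {m : ℕ | ∃ P : Finset Pl, P.card = n ∧ (csig P).edgeSet.ncard = m} := by
  refine ⟨n.choose 2, ?_⟩
  rintro m ⟨P, hP, rfl⟩
  rw [← hP]
  exact edges_le_choose P (csig P) (fun p q h => ⟨h.1, h.2.1⟩)

theorem exists_card (n : ℕ) : ∃ P : Finset Pl, P.card = n := by
  obtain ⟨P, hP, _⟩ := lower_closed n
  exact ⟨P, hP⟩

/-- The maximum is attained. -/
theorem f_mem (n : ℕ) : ∃ P : Finset Pl, P.card = n ∧ (sig P).edgeSet.ncard = f n := by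
  obtain ⟨P, hP⟩ := exists_card n
  have hne : {m : ℕ | ∃ P : Finset Pl, P.card = n ∧ (sig P).edgeSet.ncard = m}.Nonempty :=
    ⟨_, P, hP, rfl⟩
  exact Nat.sSup_mem hne (bdd_open n)

/-- The maximum is attained. -/
theorem fc_mem (n : ℕ) : ∃ P : Finset Pl, P.card = n ∧ (csig P).edgeSet.ncard = fc n := by
  obtain ⟨P, hP⟩ := exists_card n
  have hne : {m : ℕ | ∃ P : Finset Pl, P.card = n ∧ (csig P).edgeSet.ncard = m}.Nonempty :=
    ⟨_, P, hP, rfl⟩
  exact Nat.sSup_mem hne (bdd_closed n)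

theorem fc_upper (n : ℕ) (hn : 7 ≤ n) : fc n + 36 ≤ 9 * n := by
  obtain ⟨P, hP, he⟩ := fc_mem n
  rw [← he, ← hP]
  exact closed_bound P (by omega)

theorem fc_upper' (n : ℕ) : fc n ≤ 9 * n := by
  obtain ⟨P, hP, he⟩ := fc_mem n
  rw [← he, ← hP]
  exact closed_bound' P

theorem f_upper (n : ℕ) (hn : 7 ≤ n) : f n + 36 ≤ 9 * n := by
  obtain ⟨P, hP, he⟩ := f_mem n
  rw [← he, ← hP]
  exact open_bound P (by omega)

theorem f_upper' (n : ℕ) : f n ≤ 9 * n := by
  obtain ⟨P, hP, he⟩ := f_mem n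
  rw [← he, ← hP]
  exact open_bound' P

theorem fc_lower (n : ℕ) : 9 * n ≤ fc n + 54 * Nat.sqrt n + 108 := by
  obtain ⟨P, hP, he⟩ := lower_closed n
  have : (csig P).edgeSet.ncard ≤ fc n := le_csSup (bdd_closed n) ⟨P, hP, rfl⟩
  omega

theorem fc_limit : Tendsto (fun n : ℕ => (fc n : ℝ) / n) atTop (𝓝 9) := by
  have h0 : Tendsto (fun n : ℕ => (9 : ℝ) - 162 / Real.sqrt n) atTop (𝓝 (9 - 0)) :=
    tendsto_const_nhds.sub (tendsto_const_nhds.div_atTop
      (Real.tendsto_sqrt_atTop.comp tendsto_natCast_atTop_atTop))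
  rw [sub_zero] at h0
  refine tendsto_of_tendsto_of_tendsto_of_le_of_le' h0 tendsto_const_nhds ?_ ?_
  · filter_upwards [eventually_ge_atTop 1] with n hn
    have hn1 : (1 : ℝ) ≤ n := by exact_mod_cast hn
    have hs1 : (1 : ℝ) ≤ Real.sqrt n := Real.one_le_sqrt.mpr hn1
    have hss : Real.sqrt n * Real.sqrt n = n := Real.mul_self_sqrt (by linarith)
    have h1 : (9 : ℝ) * n ≤ fc n + 54 * Nat.sqrt n + 108 := by exact_mod_cast fc_lower n
    have h2 : ((Nat.sqrt n : ℕ) : ℝ) ≤ Real.sqrt n := Real.nat_sqrt_le_real_sqrt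
    rw [le_div_iff₀ (by linarith : (0 : ℝ) < n)]
    have h3 : 162 / Real.sqrt n * n = 162 * Real.sqrt n := by
      nth_rewrite 2 [← hss]
      field_simp
    rw [sub_mul, h3]
    linarith
  · filter_upwards [eventually_ge_atTop 1] with n hn
    have hn1 : (0 : ℝ) < n := by exact_mod_cast hn
    rw [div_le_iff₀ hn1]
    exact_mod_cast fc_upper' n

/-- Open discs: `f n ≤ 9 n - 36` for `n ≥ 7`, so `c ≤ 9`. Closed discs:
`9 n - 54 √n - 108 ≤ fc n` for all `n` and `fc n ≤ 9 n - 36` for `n ≥ 7`, so the constant is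
exactly `9`. -/
theorem result :
    (∀ n : ℕ, 7 ≤ n → f n + 36 ≤ 9 * n) ∧
    (∀ c : ℝ, Tendsto (fun n : ℕ => (f n : ℝ) / n) atTop (𝓝 c) → c ≤ 9) ∧
    (∀ n : ℕ, 7 ≤ n → fc n + 36 ≤ 9 * n) ∧
    (∀ n : ℕ, 9 * n ≤ fc n + 54 * Nat.sqrt n + 108) ∧
    Tendsto (fun n : ℕ => (fc n : ℝ) / n) atTop (𝓝 9) := by
  refine ⟨f_upper, ?_, fc_upper, fc_lower, fc_limit⟩
  intro c hc
  refine le_of_tendsto hc ?_
  filter_upwards [eventually_ge_atTop 1] with n hn
  have hn1 : (0 : ℝ) < n := by exact_mod_cast hn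
  rw [div_le_iff₀ hn1]
  exact_mod_cast f_upper' n

end Pool.Agent.Results.MP_62479d_co.NineSharp
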